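import Pool.Agent.R165.WPC.C

/-!
# Locally weakly pseudocompact subgroups of locally compact groups are locally pseudocompact
-/

namespace Pool.Agent.Results.MP_f8a8cb_gt.LocallyPseudocompact

open Set Topology Filter TopologicalSpace Pointwise
open Pool.Agent.R165.WPC
open Pool.Agent.Results.MP_5e9a16_gt.ToddSubgroup

universe u

/-- The subgroup generated by a compact neighbourhood of the identity is sigma-compact. -/
theorem exists_open_sigmaCompact {H : Type*} [Group H] [TopologicalSpace H] [IsTopologicalGroup H]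
    [LocallyCompactSpace H] :
    ∃ S : Subgroup H, IsOpen (S : Set H) ∧ IsSigmaCompact (S : Set H) := by
  obtain ⟨C, hC, hC1⟩ := exists_compact_mem_nhds (1 : H)
  set D : Set H := C ∪ C⁻¹ with hD
  have hDc : IsCompact D := hC.union hC.inv
  have h1D : (1 : H) ∈ D := Or.inl (mem_of_mem_nhds hC1)
  let K : ℕ → Set H := fun n => Nat.rec D (fun _ K => K * K) n
  have hKc : ∀ n, IsCompact (K n) := by
    intro n
    induction n with
    | zero => exact hDc
    | succ n ih => exact ih.mul ih
  have hK1 : ∀ n, (1 : H) ∈ K n := by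
    intro n
    induction n with
    | zero => exact h1D
    | succ n ih => exact ⟨1, ih, 1, ih, one_mul 1⟩
  have hKs : ∀ n, K n ⊆ K (n + 1) := fun n x hx => ⟨x, hx, 1, hK1 n, mul_one x⟩
  have hKm : Monotone K := monotone_nat_of_le_succ hKs
  have hKi : ∀ n, ∀ x ∈ K n, x⁻¹ ∈ K n := by
    intro n
    induction n with
    | zero =>
      intro x hx
      rcases hx with h | h
      · exact Or.inr (by simpa using h)
      · exact Or.inl (by simpa using h)
    | succ n ih =>
      rintro _ ⟨x, hx, y, hy, rfl⟩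
      exact ⟨y⁻¹, ih y hy, x⁻¹, ih x hx, (mul_inv_rev x y).symm⟩
  let S : Subgroup H :=
    { carrier := ⋃ n, K n
      mul_mem' := by
        intro a b ha hb
        rw [mem_iUnion] at ha hb ⊢
        obtain ⟨n, hn⟩ := ha
        obtain ⟨m, hm⟩ := hb
        exact ⟨max n m + 1, a, hKm (le_max_left n m) hn, b, hKm (le_max_right n m) hm, rfl⟩
      one_mem' := by
        rw [mem_iUnion]
        exact ⟨0, hK1 0⟩
      inv_mem' := by
        intro a ha
        rw [mem_iUnion] at ha ⊢
        obtain ⟨n, hn⟩ := ha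
        exact ⟨n, hKi n a hn⟩ }
  refine ⟨S, S.isOpen_of_mem_nhds (g := 1) ?_, isSigmaCompact_iUnion_of_isCompact K hKc⟩
  refine mem_of_superset hC1 fun x hx => ?_
  change x ∈ ⋃ n, K n
  rw [mem_iUnion]
  exact ⟨0, Or.inl hx⟩

/-- If a subgroup `G` of a locally compact group has an open neighbourhood `U` of the identity with
weakly pseudocompact closure, then it has an open neighbourhood of the identity with pseudocompact
closure. -/
theorem result (H : Type u) [Group H] [TopologicalSpace H] [IsTopologicalGroup H] [T2Space H]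
    [LocallyCompactSpace H] (G : Subgroup H) (U : Set G) (hU : IsOpen U) (h1 : (1 : G) ∈ U)
    (hW : WeaklyPseudocompact (closure U)) :
    ∃ V : Set G, IsOpen V ∧ (1 : G) ∈ V ∧ Pseudocompact (closure V) := by
  obtain ⟨S, hSo, hSs⟩ := exists_open_sigmaCompact (H := H)
  have hSc : IsClosed (S : Set H) := S.isClosed_of_isOpen hSo
  set T : Subgroup H := S ⊓ G.topologicalClosure with hT
  have hTc : IsClosed (T : Set H) := hSc.inter G.isClosed_topologicalClosure
  have hTs : IsSigmaCompact (T : Set H) := hSs.of_isClosed_subset hTc inter_subset_left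
  have : SigmaCompactSpace T := isSigmaCompact_iff_sigmaCompactSpace.mp hTs
  have : LocallyCompactSpace T := hTc.isClosedEmbedding_subtypeVal.locallyCompactSpace
  set G0 : Subgroup H := G ⊓ S with hG0
  have hle : G0 ≤ T := fun x hx => ⟨hx.2, G.le_topologicalClosure hx.1⟩
  let ι : G0 →* T := Subgroup.inclusion hle
  have hι : IsEmbedding ι := IsEmbedding.inclusion hle
  have hd : DenseRange ι := by
    rintro ⟨t, htS, htG⟩
    rw [mem_closure_iff]
    intro O hO htO
    obtain ⟨O', hO', rfl⟩ := isOpen_induced_iff.mp hO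
    have htG' : t ∈ closure (G : Set H) := htG
    obtain ⟨g, ⟨hg1, hg2⟩, hg3⟩ := mem_closure_iff.mp htG' (O' ∩ S) (hO'.inter hSo) ⟨htO, htS⟩
    exact ⟨ι ⟨g, hg3, hg2⟩, hg1, mem_range_self _⟩
  let k : G0 → G := Subgroup.inclusion (inf_le_left : G0 ≤ G)
  have hk : IsEmbedding k := IsEmbedding.inclusion (inf_le_left : G0 ≤ G)
  have hkr : range k = (Subtype.val : G → H) ⁻¹' S := by
    ext x
    constructor
    · rintro ⟨y, rfl⟩
      exact y.2.2
    · intro hx
      exact ⟨⟨x, x.2, hx⟩, rfl⟩
  have hkc : IsClosedEmbedding k := ⟨hk, by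
    rw [hkr]
    exact hSc.preimage continuous_subtype_val⟩
  have hko : IsOpenEmbedding k := ⟨hk, by
    rw [hkr]
    exact hSo.preimage continuous_subtype_val⟩
  -- the open subspace
  set X : Set G0 := k ⁻¹' U with hX
  have hXo : IsOpen X := hU.preimage hk.continuous
  have hXn : X.Nonempty := ⟨1, by
    rw [hX, mem_preimage]
    exact h1⟩
  let e : X → closure U := fun x => ⟨k x, subset_closure x.2⟩
  have hec : Continuous e := (hk.continuous.comp continuous_subtype_val).subtype_mk _
  have he : IsOpenEmbedding e := by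
    refine ⟨IsEmbedding.of_comp hec continuous_subtype_val
      (hk.comp IsEmbedding.subtypeVal), ?_⟩
    have : range e = (Subtype.val : closure U → G) ⁻¹' (U ∩ range k) := by
      ext y
      constructor
      · rintro ⟨x, rfl⟩
        exact ⟨x.2, (x : G0), rfl⟩
      · rintro ⟨hy, ⟨x, hx⟩⟩
        refine ⟨⟨x, ?_⟩, Subtype.ext hx⟩
        rw [hX, mem_preimage, hx]
        exact hy
    rw [this]
    exact (hU.inter hko.isOpen_range).preimage continuous_subtype_val
  obtain ⟨V0, hV0, h1V, hP⟩ := exists_pseudocompact hι hd hXo hXn (todd_of_wpc hW he)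
  refine ⟨k '' V0, hko.isOpenMap _ hV0, ⟨1, h1V, rfl⟩, ?_⟩
  intro f hf
  have hcl : closure (k '' V0) = k '' closure V0 := hkc.closure_image_eq V0
  let c : closure V0 → closure (k '' V0) := fun x => ⟨k x, by
    rw [hcl]
    exact mem_image_of_mem k x.2⟩
  have hcc : Continuous c := (hk.continuous.comp continuous_subtype_val).subtype_mk _
  obtain ⟨B, hB⟩ := hP (f ∘ c) (hf.comp hcc)
  refine ⟨B, fun y => ?_⟩
  obtain ⟨x, hx, hxy⟩ := hcl.subset y.2
  have h2 : c ⟨x, hx⟩ = y := Subtype.ext hxy
  have h3 := hB ⟨x, hx⟩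
  rw [Function.comp_apply, h2] at h3
  exact h3

end Pool.Agent.Results.MP_f8a8cb_gt.LocallyPseudocompact
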